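import Mathlib

/-!
# Module M4 for the depth-4 PIT theorem: the generator and the explicit hitting set
-/

namespace Pool.Agent.Helper28.D4

open MvPolynomial Finset

/-- Shpilka-Volkovich type generator (integer version). -/
def G (n D : ℕ) {R : Type*} [CommRing R] (z w : Fin D → R) (i : Fin n) : R :=
  ∑ j, z j * ∏ i' ∈ Finset.univ.erase i, (w j - ((i' : ℕ) : R))

lemma map_G {n D : ℕ} {R S : Type*} [CommRing R] [CommRing S] (φ : R →+* S) (z w : Fin D → R)
    (i : Fin n) : φ (G n D z w i) = G n D (fun j => φ (z j)) (fun j => φ (w j)) i := by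
  simp [G, map_sum, map_mul, map_prod]

lemma exists_eval_ne_zero {σ : Type*} (p : MvPolynomial σ ℂ) (hp : p ≠ 0) :
    ∃ a : σ → ℂ, MvPolynomial.eval a p ≠ 0 := by
  by_contra hcon
  push Not at hcon
  exact hp (MvPolynomial.funext (fun a => by simpa using hcon a))

lemma eval_aeval_comp {σ τ : Type*} (φ : σ → MvPolynomial τ ℂ) (v : τ → ℂ)
    (g : MvPolynomial σ ℂ) :
    MvPolynomial.eval v (MvPolynomial.aeval φ g) =
      MvPolynomial.eval (fun i => MvPolynomial.eval v (φ i)) g := by
  induction g using MvPolynomial.induction_on with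
  | C a => simp
  | add p q hp hq => rw [map_add, map_add, map_add, hp, hq]
  | mul_X p i hp => rw [map_mul, map_mul, map_mul, hp, aeval_X, eval_X]

lemma G_rich_single (n D : ℕ) (h : MvPolynomial (Fin n) ℂ) (h0 : h ≠ 0) (hd : h.totalDegree ≤ D) :
    ∃ z w : Fin D → ℂ, MvPolynomial.eval (G n D z w) h ≠ 0 := by
  classical
  obtain ⟨s, hs⟩ : ∃ s, s ∈ h.support := by
    by_contra hcon
    push Not at hcon
    apply h0
    rw [← MvPolynomial.support_eq_empty]
    exact Finset.eq_empty_of_forall_notMem hcon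
  set S := s.support with hS
  have hcard : S.card ≤ D := by
    have h1 := MvPolynomial.le_totalDegree hs
    have h2 : S.card ≤ s.sum fun _ e => e := by
      rw [Finsupp.sum, Finset.card_eq_sum_ones]
      apply Finset.sum_le_sum
      intro i hi
      exact Nat.one_le_iff_ne_zero.2 (Finsupp.mem_support_iff.1 hi)
    omega
  -- restriction to the variables in `S`
  set ψ : Fin n → MvPolynomial (Fin n) ℂ := fun i => if i ∈ S then X i else 0 with hψ
  have hne : aeval ψ h ≠ 0 := by
    intro hcon
    have hc : coeff s (aeval ψ h) = coeff s h := by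
      rw [aeval_def, eval₂_eq', coeff_sum]
      rw [Finset.sum_eq_single s]
      · have : ∏ i, ψ i ^ s i = monomial s 1 := by
          rw [MvPolynomial.monomial_eq, Finsupp.prod_fintype _ _ (by simp)]
          simp only [map_one, one_mul]
          apply Finset.prod_congr rfl
          intro i _
          by_cases hi : i ∈ S
          · simp [hψ, hi]
          · have : s i = 0 := by simpa [hS] using hi
            simp [this]
        rw [this, algebraMap_eq, coeff_C_mul, coeff_monomial, if_pos rfl, mul_one]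
      · intro d hd hds
        by_cases hsub : d.support ⊆ S
        · have : ∏ i, ψ i ^ d i = monomial d 1 := by
            rw [MvPolynomial.monomial_eq, Finsupp.prod_fintype _ _ (by simp)]
            simp only [map_one, one_mul]
            apply Finset.prod_congr rfl
            intro i _
            by_cases hi : i ∈ S
            · simp [hψ, hi]
            · have : d i = 0 := by
                by_contra hne
                exact hi (hsub (Finsupp.mem_support_iff.2 hne))
              simp [this]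
          rw [this, algebraMap_eq, coeff_C_mul, coeff_monomial, if_neg hds, mul_zero]
        · obtain ⟨i, hi1, hi2⟩ := Finset.not_subset.1 hsub
          have : ∏ i, ψ i ^ d i = 0 := by
            apply Finset.prod_eq_zero (Finset.mem_univ i)
            have hd0 : d i ≠ 0 := Finsupp.mem_support_iff.1 hi1
            simp [hψ, hi2, hd0]
          rw [this, mul_zero, coeff_zero]
      · intro hns; exact absurd hs hns
    rw [hcon, coeff_zero] at hc
    exact (MvPolynomial.mem_support_iff.1 hs) hc.symm
  obtain ⟨a, ha⟩ := exists_eval_ne_zero _ hne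
  rw [eval_aeval_comp] at ha
  -- embedding of `S` into `Fin D`
  obtain ⟨ι⟩ : Nonempty (↥S ↪ Fin D) := by
    apply Function.Embedding.nonempty_of_card_le
    simpa using hcard
  set c : Fin n → ℂ := fun i => ∏ i' ∈ Finset.univ.erase i, (((i : ℕ) : ℂ) - ((i' : ℕ) : ℂ)) with hc
  have hc0 : ∀ i, c i ≠ 0 := by
    intro i
    rw [hc]
    apply Finset.prod_ne_zero_iff.2
    intro i' hi'
    rw [sub_ne_zero]
    intro heq
    have h1 : (i : ℕ) = (i' : ℕ) := by exact_mod_cast heq
    exact (Finset.ne_of_mem_erase hi') (Fin.ext h1.symm)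
  refine ⟨fun j => ∑ i : ↥S, if ι i = j then a i / c i else 0,
    fun j => ∑ i : ↥S, if ι i = j then ((i : Fin n) : ℕ) else (0 : ℂ), ?_⟩
  have hG : G n D (fun j => ∑ i : ↥S, if ι i = j then a i / c i else 0)
      (fun j => ∑ i : ↥S, if ι i = j then (((i : Fin n) : ℕ) : ℂ) else (0 : ℂ)) =
      fun i => MvPolynomial.eval a (ψ i) := by
    funext i
    unfold G
    have e1 : ∀ j : Fin D, (∑ i : ↥S, if ι i = j then a i / c i else 0) *
        ∏ i' ∈ Finset.univ.erase i,
          ((∑ i : ↥S, if ι i = j then (((i : Fin n) : ℕ) : ℂ) else (0 : ℂ)) - ((i' : ℕ) : ℂ)) =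
        ∑ l : ↥S, if ι l = j then a l / c l *
          ∏ i' ∈ Finset.univ.erase i, ((((l : Fin n) : ℕ) : ℂ) - ((i' : ℕ) : ℂ)) else 0 := by
      intro j
      rw [Finset.sum_mul]
      apply Finset.sum_congr rfl
      intro l _
      by_cases hl : ι l = j
      · rw [if_pos hl, if_pos hl]
        congr 1
        apply Finset.prod_congr rfl
        intro i' _
        congr 1
        rw [Finset.sum_eq_single l]
        · rw [if_pos hl]
        · intro l' _ hne'
          rw [if_neg]
          intro h'
          exact hne' (ι.injective (h'.trans hl.symm))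
        · intro h'; exact absurd (Finset.mem_univ l) h'
      · rw [if_neg hl, if_neg hl, zero_mul]
    simp_rw [e1]
    rw [Finset.sum_comm]
    have e2 : ∀ l : ↥S, (∑ j : Fin D, if ι l = j then a l / c l *
          ∏ i' ∈ Finset.univ.erase i, ((((l : Fin n) : ℕ) : ℂ) - ((i' : ℕ) : ℂ)) else 0) =
        if (l : Fin n) = i then a i else 0 := by
      intro l
      rw [Finset.sum_ite_eq, if_pos (Finset.mem_univ _)]
      by_cases hl : (l : Fin n) = i
      · rw [if_pos hl, hl]
        have := hc0 i
        rw [hc] at this ⊢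
        field_simp
      · rw [if_neg hl]
        rw [Finset.prod_eq_zero (i := (l : Fin n))]
        · simp
        · exact Finset.mem_erase.2 ⟨hl, Finset.mem_univ _⟩
        · simp
    simp_rw [e2]
    by_cases hi : i ∈ S
    · rw [Finset.sum_eq_single (⟨i, hi⟩ : ↥S)]
      · simp [hψ, hi]
      · intro l _ hl
        rw [if_neg]
        intro h'
        exact hl (Subtype.ext h')
      · intro h'; exact absurd (Finset.mem_univ _) h'
    · rw [Finset.sum_eq_zero]
      · simp [hψ, hi]
      · intro l _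
        rw [if_neg]
        intro h'
        exact hi (h' ▸ l.2)
  have hG' : G n D (fun j => ∑ i : ↥S, if ι i = j then a i / c i else 0)
      (fun j => ∑ i : ↥S, if ι i = j then ((i : Fin n) : ℕ) else (0 : ℂ)) =
      fun i => MvPolynomial.eval a (ψ i) := hG
  rw [hG']
  exact ha

theorem G_rich (n D : ℕ) (g : MvPolynomial (Fin n) ℂ)
    (hg : g ∈ Submonoid.closure {h : MvPolynomial (Fin n) ℂ | h ≠ 0 ∧ h.totalDegree ≤ D}) :
    ∃ z w : Fin D → ℂ, MvPolynomial.eval (G n D z w) g ≠ 0 := by
  set Z : Fin D → MvPolynomial (Fin D ⊕ Fin D) ℂ := fun j => X (Sum.inl j) with hZ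
  set W : Fin D → MvPolynomial (Fin D ⊕ Fin D) ℂ := fun j => X (Sum.inr j) with hW
  have hev : ∀ (v : Fin D ⊕ Fin D → ℂ) (p : MvPolynomial (Fin n) ℂ),
      MvPolynomial.eval v (aeval (G n D Z W) p) =
        MvPolynomial.eval (G n D (fun j => v (Sum.inl j)) (fun j => v (Sum.inr j))) p := by
    intro v p
    rw [eval_aeval_comp]
    congr 2
    funext i
    rw [map_G]
    simp [hZ, hW]
  have hne : aeval (G n D Z W) g ≠ 0 := by
    induction hg using Submonoid.closure_induction with
    | mem h hh =>
      obtain ⟨z, w, hzw⟩ := G_rich_single n D h hh.1 hh.2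
      intro hcon
      apply hzw
      have := hev (Sum.elim z w) h
      rw [hcon, map_zero] at this
      simpa using this.symm
    | one => simp
    | mul x y _ _ hx hy =>
      rw [map_mul]
      exact mul_ne_zero hx hy
  obtain ⟨v, hv⟩ := exists_eval_ne_zero _ hne
  rw [hev] at hv
  exact ⟨_, _, hv⟩

/-- parameters of the hitting set. -/
abbrev Par (D r : ℕ) : Type := Fin r ⊕ (Fin (r + 1) × (Fin D ⊕ Fin D))

/-- the point with given parameters. -/
def pt (n D r : ℕ) {R : Type*} [CommRing R] (c : Par D r → R) (i : Fin n) : R :=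
  G n D (fun j => c (Sum.inr (0, Sum.inl j))) (fun j => c (Sum.inr (0, Sum.inr j))) i +
    ∑ k : Fin r, c (Sum.inl k) *
      G n D (fun j => c (Sum.inr (k.succ, Sum.inl j))) (fun j => c (Sum.inr (k.succ, Sum.inr j))) i

lemma map_pt {n D r : ℕ} {R S : Type*} [CommRing R] [CommRing S] (φ : R →+* S) (c : Par D r → R)
    (i : Fin n) : φ (pt n D r c i) = pt n D r (fun p => φ (c p)) i := by
  simp [pt, map_G, map_sum, map_mul]

/-- the explicit hitting set: image of the grid `{0..b}^(r + (r+1)*2D)`. -/
def hit (n D r b : ℕ) : Finset (Fin n → ℤ) :=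
  (Finset.univ : Finset (Par D r → Fin (b + 1))).image
    (fun c => pt n D r (fun p => (((c p : Fin (b + 1)) : ℕ) : ℤ)))

theorem hit_card (n D r b : ℕ) : (hit n D r b).card ≤ (b + 1) ^ (r + (r + 1) * (2 * D)) := by
  unfold hit
  refine Finset.card_image_le.trans (le_of_eq ?_)
  rw [Finset.card_univ, Fintype.card_fun, Fintype.card_fin]
  congr 1
  simp [Par]
  ring

lemma G_bound (n D b : ℕ) (z w : Fin D → ℤ) (hz : ∀ j, 0 ≤ z j ∧ z j ≤ b)
    (hw : ∀ j, 0 ≤ w j ∧ w j ≤ b) (i : Fin n) :
    |G n D z w i| ≤ (D * (b + 1)) * (b + n + 1) ^ n := by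
  unfold G
  calc |∑ j, z j * ∏ i' ∈ Finset.univ.erase i, (w j - ((i' : ℕ) : ℤ))|
      ≤ ∑ j, |z j * ∏ i' ∈ Finset.univ.erase i, (w j - ((i' : ℕ) : ℤ))| :=
        Finset.abs_sum_le_sum_abs _ _
    _ ≤ ∑ j : Fin D, ((b : ℤ) + 1) * (b + n + 1) ^ n := by
        apply Finset.sum_le_sum
        intro j _
        rw [abs_mul]
        apply mul_le_mul
        · rw [abs_of_nonneg (hz j).1]
          linarith [(hz j).2]
        · rw [Finset.abs_prod]
          calc ∏ i' ∈ Finset.univ.erase i, |w j - ((i' : ℕ) : ℤ)|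
              ≤ ∏ i' ∈ Finset.univ.erase i, ((b : ℤ) + n + 1) := by
                apply Finset.prod_le_prod
                · intro _ _; exact abs_nonneg _
                · intro i' _
                  have h1 : ((i' : ℕ) : ℤ) < n := by exact_mod_cast i'.2
                  have h2 : (0 : ℤ) ≤ ((i' : ℕ) : ℤ) := by positivity
                  rw [abs_le]
                  constructor <;> linarith [(hw j).1, (hw j).2]
            _ = ((b : ℤ) + n + 1) ^ (n - 1) := by
                rw [Finset.prod_const, Finset.card_erase_of_mem (Finset.mem_univ i),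
                  Finset.card_univ, Fintype.card_fin]
            _ ≤ ((b : ℤ) + n + 1) ^ n := by
                apply pow_le_pow_right₀
                · have : (0 : ℤ) ≤ b := by positivity
                  have : (0 : ℤ) ≤ n := by positivity
                  linarith
                · omega
        · exact abs_nonneg _
        · positivity
    _ = (D * (b + 1)) * (b + n + 1) ^ n := by
        rw [Finset.sum_const, Finset.card_univ, Fintype.card_fin, nsmul_eq_mul]
        ring

theorem hit_bound (n D r b : ℕ) : ∀ a ∈ hit n D r b, ∀ i,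
    |a i| ≤ ((r : ℤ) + 1) * (b + 1) * (D * (b + 1)) * (b + n + 1) ^ n := by
  intro a ha i
  unfold hit at ha
  rw [Finset.mem_image] at ha
  obtain ⟨c, _, rfl⟩ := ha
  have hc : ∀ p, (0 : ℤ) ≤ (((c p : Fin (b + 1)) : ℕ) : ℤ) ∧ (((c p : Fin (b + 1)) : ℕ) : ℤ) ≤ b := by
    intro p
    constructor
    · positivity
    · have := (c p).2
      exact_mod_cast Nat.lt_succ_iff.1 this
  set B : ℤ := (D * (b + 1)) * (b + n + 1) ^ n with hB
  have hB0 : 0 ≤ B := by positivity
  unfold pt
  refine (abs_add_le _ _).trans ?_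
  have h1 := G_bound n D b (fun j => (((c (Sum.inr (0, Sum.inl j)) : Fin (b + 1)) : ℕ) : ℤ))
    (fun j => (((c (Sum.inr (0, Sum.inr j)) : Fin (b + 1)) : ℕ) : ℤ)) (fun j => hc _) (fun j => hc _) i
  have h2 : |∑ k : Fin r, (((c (Sum.inl k) : Fin (b + 1)) : ℕ) : ℤ) *
      G n D (fun j => (((c (Sum.inr (k.succ, Sum.inl j)) : Fin (b + 1)) : ℕ) : ℤ))
        (fun j => (((c (Sum.inr (k.succ, Sum.inr j)) : Fin (b + 1)) : ℕ) : ℤ)) i| ≤ r * (b * B) := by
    refine (Finset.abs_sum_le_sum_abs _ _).trans ?_
    have : ∀ k ∈ (Finset.univ : Finset (Fin r)), |(((c (Sum.inl k) : Fin (b + 1)) : ℕ) : ℤ) *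
      G n D (fun j => (((c (Sum.inr (k.succ, Sum.inl j)) : Fin (b + 1)) : ℕ) : ℤ))
        (fun j => (((c (Sum.inr (k.succ, Sum.inr j)) : Fin (b + 1)) : ℕ) : ℤ)) i| ≤ b * B := by
      intro k _
      rw [abs_mul]
      apply mul_le_mul
      · rw [abs_of_nonneg (hc _).1]; exact (hc _).2
      · exact G_bound n D b _ _ (fun j => hc _) (fun j => hc _) i
      · exact abs_nonneg _
      · positivity
    refine (Finset.sum_le_sum this).trans (le_of_eq ?_)
    rw [Finset.sum_const, Finset.card_univ, Fintype.card_fin, nsmul_eq_mul]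
  have h3 : ((r : ℤ) + 1) * (b + 1) * (D * (b + 1)) * (b + n + 1) ^ n = (r + 1) * (b + 1) * B := by
    rw [hB]; ring
  rw [h3]
  have hr0 : (0 : ℤ) ≤ r := by positivity
  have hb0 : (0 : ℤ) ≤ b := by positivity
  have h4 : B + r * (b * B) ≤ (r + 1) * (b + 1) * B := by nlinarith [mul_nonneg hr0 hB0, mul_nonneg hb0 hB0]
  calc _ ≤ B + r * (b * B) := add_le_add h1 h2
    _ ≤ _ := h4

/-! ### degrees -/

lemma degreeOf_sub_le' {σ : Type*} (v : σ) (p q : MvPolynomial σ ℂ) :
    degreeOf v (p - q) ≤ max (degreeOf v p) (degreeOf v q) := by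
  rw [sub_eq_add_neg]
  refine (degreeOf_add_le v p (-q)).trans ?_
  rw [degreeOf_neg]

lemma degreeOf_X_le {σ : Type*} (v w : σ) : degreeOf v (X w : MvPolynomial σ ℂ) ≤ 1 := by
  classical
  rw [degreeOf_X]
  split_ifs <;> omega

lemma degreeOf_G {σ : Type*} (n D : ℕ) (z w : Fin D → σ) (v : σ) (i : Fin n) :
    degreeOf v (G n D (fun j => (X (z j) : MvPolynomial σ ℂ)) (fun j => X (w j)) i) ≤ n := by
  unfold G
  refine (degreeOf_sum_le v _ _).trans ?_
  apply Finset.sup_le
  intro j _
  refine (degreeOf_mul_le v _ _).trans ?_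
  have hn : 0 < n := i.pos
  have h1 := degreeOf_X_le v (z j)
  have h2 : degreeOf v (∏ i' ∈ Finset.univ.erase i, (X (w j) - (((i' : ℕ) : MvPolynomial σ ℂ)))) ≤
      n - 1 := by
    refine (degreeOf_prod_le v _ _).trans ?_
    calc ∑ i' ∈ Finset.univ.erase i, degreeOf v (X (w j) - (((i' : ℕ) : MvPolynomial σ ℂ)))
        ≤ ∑ i' ∈ (Finset.univ : Finset (Fin n)).erase i, 1 := by
          apply Finset.sum_le_sum
          intro i' _
          refine (degreeOf_sub_le' v _ _).trans ?_
          apply max_le (degreeOf_X_le v (w j))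
          have : (((i' : ℕ) : MvPolynomial σ ℂ)) = C ((i' : ℕ) : ℂ) := by simp
          rw [this, degreeOf_C]
          omega
      _ = n - 1 := by
          rw [Finset.sum_const, Finset.card_erase_of_mem (Finset.mem_univ i),
                  Finset.card_univ, Fintype.card_fin]
          simp
  exact (Nat.add_le_add h1 h2).trans (by omega)

lemma degreeOf_pt (n D r : ℕ) (v : Par D r) (i : Fin n) :
    degreeOf v (pt n D r (fun p => (X p : MvPolynomial (Par D r) ℂ)) i) ≤ n + 1 := by
  unfold pt
  refine (degreeOf_add_le v _ _).trans ?_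
  apply max_le
  · exact (degreeOf_G n D _ _ v i).trans (by omega)
  · refine (degreeOf_sum_le v _ _).trans ?_
    apply Finset.sup_le
    intro k _
    refine (degreeOf_mul_le v _ _).trans ?_
    have h1 := degreeOf_X_le v (Sum.inl k : Par D r)
    have h2 := degreeOf_G n D (fun j => (Sum.inr (k.succ, Sum.inl j) : Par D r))
      (fun j => Sum.inr (k.succ, Sum.inr j)) v i
    exact (Nat.add_le_add h1 h2).trans (by omega)

lemma degreeOf_aeval_le {σ τ : Type*} [Fintype σ] (φ : σ → MvPolynomial τ ℂ) (v : τ) (B d : ℕ)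
    (hφ : ∀ i, degreeOf v (φ i) ≤ B) (f : MvPolynomial σ ℂ) (hf : f.totalDegree ≤ d) :
    degreeOf v (aeval φ f) ≤ d * B := by
  rw [aeval_def, eval₂_eq']
  refine (degreeOf_sum_le v _ _).trans ?_
  apply Finset.sup_le
  intro m hm
  refine (degreeOf_mul_le v _ _).trans ?_
  rw [algebraMap_eq, degreeOf_C, zero_add]
  refine (degreeOf_prod_le v _ _).trans ?_
  calc ∑ i, degreeOf v (φ i ^ m i) ≤ ∑ i, m i * B := by
        apply Finset.sum_le_sum
        intro i _
        refine (degreeOf_pow_le v _ _).trans ?_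
        exact Nat.mul_le_mul_left _ (hφ i)
    _ = (∑ i, m i) * B := by rw [Finset.sum_mul]
    _ ≤ d * B := by
        apply Nat.mul_le_mul_right
        have h1 := MvPolynomial.le_totalDegree hm
        rw [Finsupp.sum_fintype _ _ (by simp)] at h1
        exact h1.trans hf

theorem hit_hits (n D r b d : ℕ) (hb : d * (n + 1) ≤ b) (f : MvPolynomial (Fin n) ℂ)
    (hd : f.totalDegree ≤ d)
    (h : ∃ (y : Fin r → ℂ) (z w : Fin (r + 1) → Fin D → ℂ),
      MvPolynomial.eval (fun i => G n D (z 0) (w 0) i +
        ∑ k : Fin r, y k * G n D (z k.succ) (w k.succ) i) f ≠ 0) :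
    ∃ a ∈ hit n D r b, MvPolynomial.eval (fun i => ((a i : ℤ) : ℂ)) f ≠ 0 := by
  classical
  obtain ⟨y, z, w, hyzw⟩ := h
  set F : MvPolynomial (Par D r) ℂ :=
    aeval (fun i => pt n D r (fun p => (X p : MvPolynomial (Par D r) ℂ)) i) f with hF
  have hev : ∀ c : Par D r → ℂ, MvPolynomial.eval c F =
      MvPolynomial.eval (fun i => pt n D r c i) f := by
    intro c
    rw [hF, eval_aeval_comp]
    congr 2
    funext i
    rw [map_pt]
    simp
  have hF0 : F ≠ 0 := by
    intro hcon
    apply hyzw
    have h1 := hev (Sum.elim y (fun q => Sum.elim (z q.1) (w q.1) q.2))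
    rw [hcon, map_zero] at h1
    rw [← h1.symm]
    congr 1
  by_contra hcon
  push Not at hcon
  apply hF0
  apply MvPolynomial.eq_zero_of_eval_zero_at_prod_finset F
    (fun _ => (Finset.range (b + 1)).image (fun k : ℕ => (k : ℂ)))
  · intro v
    rw [Finset.card_image_of_injective _ Nat.cast_injective, Finset.card_range]
    have := degreeOf_aeval_le (fun i => pt n D r (fun p => (X p : MvPolynomial (Par D r) ℂ)) i) v
      (n + 1) d (fun i => degreeOf_pt n D r v i) f hd
    rw [hF]
    omega
  · intro x hx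
    have h1 : ∀ p, ∃ k : Fin (b + 1), (((k : Fin (b + 1)) : ℕ) : ℂ) = x p := by
      intro p
      obtain ⟨k, hk, hkx⟩ := Finset.mem_image.1 (hx p)
      exact ⟨⟨k, Finset.mem_range.1 hk⟩, hkx⟩
    choose c hc using h1
    rw [hev]
    have h2 := hcon (pt n D r (fun p => (((c p : Fin (b + 1)) : ℕ) : ℤ)))
      (Finset.mem_image.2 ⟨c, Finset.mem_univ _, rfl⟩)
    rw [← h2]
    congr 2
    funext i
    have h3 := map_pt (Int.castRingHom ℂ) (n := n) (fun p => (((c p : Fin (b + 1)) : ℕ) : ℤ)) i
    simp only [eq_intCast, Int.cast_natCast] at h3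
    rw [h3]
    congr 1
    funext p
    exact (hc p).symm

end Pool.Agent.Helper28.D4
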