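import Mathlib

/-!
# Module M3 for the depth-4 PIT theorem: the norm trick
-/

namespace Pool.Agent.Helper28.D4

open MvPolynomial

lemma exists_coeff_zero_ne {R A : Type*} [CommRing R] [CommRing A] [IsDomain A] [Algebra R A]
    (f : A) (hf : f ≠ 0) : ∀ (k : ℕ) (q : Polynomial R), q.natDegree ≤ k → q ≠ 0 →
      Polynomial.aeval f q = 0 → ∃ q' : Polynomial R, Polynomial.aeval f q' = 0 ∧ q'.coeff 0 ≠ 0 := by
  intro k
  induction k with
  | zero =>
    intro q hk hq h
    refine ⟨q, h, ?_⟩
    intro hcon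
    apply hq
    rw [Polynomial.eq_C_of_natDegree_le_zero hk, hcon, map_zero]
  | succ k ih =>
    intro q hk hq h
    by_cases h0 : q.coeff 0 = 0
    · have e := Polynomial.divX_mul_X_add q
      rw [h0, map_zero, add_zero] at e
      have hdiv : q.divX ≠ 0 := by
        intro hcon
        rw [hcon, zero_mul] at e
        exact hq e.symm
      apply ih q.divX
      · rw [Polynomial.natDegree_divX_eq_natDegree_tsub_one]
        omega
      · exact hdiv
      · rw [← e, map_mul, Polynomial.aeval_X] at h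
        rcases mul_eq_zero.1 h with h1 | h1
        · exact h1
        · exact absurd h1 hf
    · exact ⟨q, h, h0⟩

theorem norm_trick {m n r : ℕ} (P : Fin m → MvPolynomial (Fin n) ℂ)
    (hr : ∀ s : Fin (r+1) → Fin m, ¬ AlgebraicIndependent ℂ (fun i => P (s i)))
    (g : MvPolynomial (Fin m) ℂ) (hf : MvPolynomial.aeval P g ≠ 0) :
    ∃ r' ≤ r, ∃ s : Fin r' → Fin m, AlgebraicIndependent ℂ (fun i => P (s i)) ∧
      ∃ (B : MvPolynomial (Fin r') ℂ) (h : MvPolynomial (Fin m) ℂ), B ≠ 0 ∧
        MvPolynomial.aeval (fun i => P (s i)) B = MvPolynomial.aeval P g * MvPolynomial.aeval P h := by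
  classical
  set K : ℕ → Prop := fun k => ∃ s : Fin k → Fin m, AlgebraicIndependent ℂ (fun i => P (s i)) with hK
  have hK0 : K 0 := by
    refine ⟨Fin.elim0, ?_⟩
    rw [algebraicIndependent_empty_type_iff]
    exact (algebraMap ℂ (MvPolynomial (Fin n) ℂ)).injective
  have hKr : ∀ k, K k → k ≤ r := by
    rintro k ⟨s, hs⟩
    by_contra hcon
    push Not at hcon
    exact hr (fun i => s (Fin.castLE hcon i)) (hs.comp (Fin.castLE hcon) (Fin.castLE_injective _))
  set r' := Nat.findGreatest K r with hr'
  have hKr' : K r' := Nat.findGreatest_spec (Nat.zero_le r) hK0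
  have hmax : ¬ K (r' + 1) := by
    intro hcon
    have h1 := hKr _ hcon
    have := Nat.le_findGreatest h1 hcon
    omega
  obtain ⟨s, hs⟩ := hKr'
  refine ⟨r', hKr _ ⟨s, hs⟩, s, hs, ?_⟩
  set x : Fin r' → MvPolynomial (Fin n) ℂ := fun i => P (s i) with hx
  -- every P j is algebraic over the adjoined algebra
  have halg : ∀ j, IsAlgebraic (Algebra.adjoin ℂ (Set.range x)) (P j) := by
    intro j
    by_contra hcon
    apply hmax
    have h1 := (AlgebraicIndependent.option_iff_transcendental hs (P j)).2 hcon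
    let e : Fin (r' + 1) ≃ Option (Fin r') := finSuccEquiv r'
    refine ⟨fun i => (e i).elim j s, ?_⟩
    have h2 := h1.comp e e.injective
    convert h2 using 2 with i
    simp only [Function.comp]
    cases e i <;> rfl
  have halgf : IsAlgebraic (Algebra.adjoin ℂ (Set.range x)) (MvPolynomial.aeval P g) := by
    clear hf
    induction g using MvPolynomial.induction_on with
    | C a =>
      rw [MvPolynomial.aeval_C]
      have : algebraMap ℂ (MvPolynomial (Fin n) ℂ) a =
        algebraMap (Algebra.adjoin ℂ (Set.range x)) (MvPolynomial (Fin n) ℂ) (algebraMap ℂ _ a) := rfl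
      rw [this]
      exact isAlgebraic_algebraMap _
    | add p q hp hq => rw [map_add]; exact hp.add hq
    | mul_X p i hp => rw [map_mul, MvPolynomial.aeval_X]; exact hp.mul (halg i)
  obtain ⟨q, hq0, hq⟩ := halgf
  obtain ⟨q', hq'1, hq'2⟩ := exists_coeff_zero_ne (MvPolynomial.aeval P g) hf q.natDegree q le_rfl hq0 hq
  -- the constant coefficient
  obtain ⟨B, hB⟩ : ∃ B : MvPolynomial (Fin r') ℂ, MvPolynomial.aeval x B =
      ((q'.coeff 0 : Algebra.adjoin ℂ (Set.range x)) : MvPolynomial (Fin n) ℂ) := by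
    have hall : ∀ y ∈ Algebra.adjoin ℂ (Set.range x), ∃ B : MvPolynomial (Fin r') ℂ,
        MvPolynomial.aeval x B = y := by
      intro y hy
      rw [Algebra.adjoin_range_eq_range_aeval] at hy
      exact hy
    exact hall _ (q'.coeff 0).2
  have hS : ∀ p : Polynomial (Algebra.adjoin ℂ (Set.range x)),
      ∃ h : MvPolynomial (Fin m) ℂ, MvPolynomial.aeval P h =
        Polynomial.aeval (MvPolynomial.aeval P g) p := by
    intro p
    have hmem : Polynomial.aeval (MvPolynomial.aeval P g) p ∈
        (MvPolynomial.aeval P : MvPolynomial (Fin m) ℂ →ₐ[ℂ] MvPolynomial (Fin n) ℂ).range := by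
      rw [Polynomial.aeval_eq_sum_range]
      apply Subalgebra.sum_mem
      intro i _
      rw [Algebra.smul_def]
      apply Subalgebra.mul_mem
      · have h1 := (p.coeff i).2
        have h2 : Algebra.adjoin ℂ (Set.range x) ≤
            (MvPolynomial.aeval P : MvPolynomial (Fin m) ℂ →ₐ[ℂ] MvPolynomial (Fin n) ℂ).range := by
          apply Algebra.adjoin_le
          rintro _ ⟨l, rfl⟩
          exact ⟨X (s l), by simp [hx]⟩
        exact h2 h1
      · apply Subalgebra.pow_mem
        exact (AlgHom.mem_range _).2 ⟨g, rfl⟩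
    exact hmem
  obtain ⟨h, hh⟩ := hS q'.divX
  refine ⟨B, -h, ?_, ?_⟩
  · rintro rfl
    rw [map_zero] at hB
    apply hq'2
    exact Subtype.ext hB.symm
  · rw [hB, map_neg, hh]
    have e := Polynomial.divX_mul_X_add q'
    rw [← e, map_add, map_mul, Polynomial.aeval_X, Polynomial.aeval_C] at hq'1
    have h3 : algebraMap (Algebra.adjoin ℂ (Set.range x)) (MvPolynomial (Fin n) ℂ) (q'.coeff 0) =
      ((q'.coeff 0 : Algebra.adjoin ℂ (Set.range x)) : MvPolynomial (Fin n) ℂ) := rfl
    rw [h3] at hq'1
    linear_combination hq'1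

end Pool.Agent.Helper28.D4
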